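import Pool.Agent.helper3.FS.SpecE

/-!
# fse:KRA (helper60): lower bound for `-log ‖g‖` by Green functions
-/

set_option autoImplicit false

open Complex Metric Set Filter Topology MeasureTheory
open HY (UD T S hd UN RM)
open RT

noncomputable section

namespace FSE

theorem KRA_T0 (x : ℂ) : ‖T x 0‖ = ‖x‖ := by
  unfold HY.T
  simp

theorem KRA_ud {x : ℂ} : x ∈ UD ↔ ‖x‖ < 1 := by
  unfold HY.UD
  rw [mem_ball_zero_iff]

/-- a holomorphic map into the closed disc which is somewhere of modulus `< 1` is a map into the disc. -/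
theorem KRA_self {g : ℂ → ℂ} (hg : DifferentiableOn ℂ g UD) (hm : MapsTo g UD (closedBall 0 1)) {x : ℂ} (hx : x ∈ UD)
    (hlt : ‖g x‖ < 1) : MapsTo g UD UD := by
  intro y hy
  by_contra hn
  have h1 : ‖g y‖ = 1 := le_antisymm (mem_closedBall_zero_iff.1 (hm hy)) (not_lt.1 (fun h => hn (KRA_ud.2 h)))
  have hmax : IsMaxOn (norm ∘ g) UD y := fun z hz => by
    have h2 : ‖g z‖ ≤ 1 := mem_closedBall_zero_iff.1 (hm hz)
    show ‖g z‖ ≤ ‖g y‖
    rw [h1]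
    exact h2
  have hd : DifferentiableOn ℂ g (ball 0 1) := hg
  have h3 := Complex.norm_eqOn_of_isPreconnected_of_isMaxOn (convex_ball (0 : ℂ) 1).isPreconnected isOpen_ball hd hy hmax hx
  have h4 : ‖g x‖ = ‖g y‖ := h3
  rw [h4, h1] at hlt
  exact lt_irrefl _ hlt

/-- step (a). -/
theorem KRA_a (hSPK : ED.SPK_stmt) {g : ℂ → ℂ} (hg : DifferentiableOn ℂ g UD) (hm : MapsTo g UD UD) {τ : ℝ} (hτ : 0 ≤ τ)
    {x y : ℂ} (hx : x ∈ UD) (hgx : ‖g x‖ ≤ 1 - τ) (hy : y ∈ UD) (hT : ‖T x y‖ ≤ 3 / 5) : ‖g y‖ ≤ Real.exp (-(τ / 5)) := by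
  obtain ⟨h1, -, h3, -, -, -⟩ := hSPK
  have e1 : ‖T (g x) (g y)‖ ≤ 3 / 5 := (h1 g hg hm x hx y hy).trans hT
  have e2 := h3 (g x) (hm hx) (g y) (hm hy)
  have e3 : τ * (2 / 5) / 2 ≤ (1 - ‖g x‖) * (1 - ‖T (g x) (g y)‖) / 2 := by
    apply div_le_div_of_nonneg_right _ (by norm_num)
    exact mul_le_mul (by linarith) (by linarith) (by norm_num) (by linarith)
  have e4 : ‖g y‖ ≤ 1 - τ / 5 := by linarith
  have e5 : 1 - τ / 5 ≤ Real.exp (-(τ / 5)) := by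
    have := Real.add_one_le_exp (-(τ / 5))
    linarith
  exact e4.trans e5

/-- products of powers and sums of logarithms. -/
theorem KRA_prod (E : Finset ℂ) (F : ℂ → ℝ) (lam : ℝ) (hF : ∀ x ∈ E, 0 < F x) :
    ∏ i : E, F i ^ (-lam) = Real.exp (lam * ∑ x ∈ E, Real.log (1 / F x)) := by
  rw [Finset.prod_coe_sort E (fun x => F x ^ (-lam)), Finset.mul_sum, Real.exp_sum]
  refine Finset.prod_congr rfl fun x hx => ?_
  rw [Real.rpow_def_of_pos (hF x hx)]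
  congr 1
  rw [one_div, Real.log_inv]
  ring

/-- step (c): the estimate for one radius `t`. -/
theorem KRA_c (hQMX : QMX_stmt) (hSPK : ED.SPK_stmt) (hMOB : HY.MOB_stmt) {g : ℂ → ℂ} {E : Finset ℂ} {τ C₁ : ℝ} (hg : DifferentiableOn ℂ g UD)
    (hm : MapsTo g UD UD) (hτ : 0 ≤ τ) (hC : 1 ≤ C₁) (hE : ∀ x ∈ E, x ∈ UD ∧ ‖g x‖ ≤ 1 - τ)
    (hS : ∀ y ∈ UD, (∀ x ∈ E, 3 / 5 ≤ ‖T x y‖) → ∑ x ∈ E, Real.log (1 / ‖T x y‖) ≤ C₁)
    (hfar : ∀ x ∈ E, 3 / 5 < ‖x‖) {t b : ℝ} (ht0 : 0 < t) (ht1 : t < 1) (hb0 : 0 < b) (hb1 : b ≤ 1)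
    (hbd : ∀ x ∈ E, ∀ y : ℂ, ‖y‖ = t → b ≤ ‖T x y‖) :
    ‖g 0‖ * Real.exp (τ / (5 * C₁) * ∑ x ∈ E, Real.log (1 / ‖x‖)) ≤ Real.exp (τ / (5 * C₁) * (E.card * Real.log (1 / b))) := by
  set lam := τ / (5 * C₁) with hlam
  have hl0 : 0 ≤ lam := by positivity
  set Ω : Set ℂ := {y | ‖y‖ < t ∧ ∀ x ∈ E, 3 / 5 < ‖T x y‖} with hΩ
  have hTc : ∀ x ∈ E, ContinuousOn (fun y => ‖T x y‖) UD := fun x hx =>
    ((hMOB x (hE x hx).1).2.2.2.1).continuousOn.norm
  have hsub : ball (0 : ℂ) t ⊆ UD := fun y hy => KRA_ud.2 ((mem_ball_zero_iff.1 hy).trans ht1)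
  have hsub' : closedBall (0 : ℂ) t ⊆ UD := fun y hy => KRA_ud.2 (lt_of_le_of_lt (mem_closedBall_zero_iff.1 hy) ht1)
  have hΩo : IsOpen Ω := by
    have e : Ω = ball (0 : ℂ) t ∩ ⋂ x ∈ E, (ball (0 : ℂ) t ∩ (fun y => ‖T x y‖) ⁻¹' Ioi (3 / 5)) := by
      ext y
      simp only [hΩ, mem_setOf_eq, mem_inter_iff, mem_iInter, mem_ball_zero_iff, mem_preimage, mem_Ioi]
      constructor
      · rintro ⟨h1, h2⟩
        exact ⟨h1, fun x hx => ⟨h1, h2 x hx⟩⟩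
      · rintro ⟨h1, h2⟩
        exact ⟨h1, fun x hx => (h2 x hx).2⟩
    rw [e]
    refine isOpen_ball.inter (isOpen_biInter_finset fun x hx => ?_)
    exact ((hTc x hx).mono hsub).isOpen_inter_preimage isOpen_ball isOpen_Ioi
  have hΩsub : Ω ⊆ ball 0 t := fun y hy => mem_ball_zero_iff.2 hy.1
  have hcl : closure Ω ⊆ closedBall 0 t := (closure_mono hΩsub).trans closure_ball_subset_closedBall
  have hclT : ∀ z ∈ closure Ω, ∀ x ∈ E, 3 / 5 ≤ ‖T x z‖ := by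
    intro z hz x hx
    have hca : ContinuousWithinAt (fun y => ‖T x y‖) Ω z := by
      have h1 : ContinuousAt (fun y => ‖T x y‖) z :=
        (hTc x hx).continuousAt (isOpen_ball.mem_nhds (hsub' (hcl hz)))
      exact h1.continuousWithinAt
    haveI : (𝓝[Ω] z).NeBot := mem_closure_iff_nhdsWithin_neBot.1 hz
    exact ge_of_tendsto hca (eventually_nhdsWithin_of_forall fun y hy => (hy.2 x hx).le)
  have h0Ω : (0 : ℂ) ∈ Ω := by
    refine ⟨by simpa using ht0, fun x hx => ?_⟩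
    rw [KRA_T0]
    exact hfar x hx
  have hne : ∀ i : E, ∀ z ∈ closure Ω, T i z ≠ 0 := by
    intro i z hz h0
    have := hclT z hz i i.2
    rw [h0, norm_zero] at this
    linarith
  have hlb : 0 ≤ Real.log (1 / b) := Real.log_nonneg (by rw [le_div_iff₀ hb0]; linarith)
  have hM1 : 1 ≤ Real.exp (lam * (E.card * Real.log (1 / b))) := Real.one_le_exp (by positivity)
  have key := hQMX E Ω g (fun i => T i) (fun _ => -lam) (Real.exp (lam * (E.card * Real.log (1 / b)))) hΩo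
    (isBounded_ball.subset hΩsub) (hg.mono (hΩsub.trans hsub)) (hg.continuousOn.mono (hcl.trans hsub'))
    (fun i => ((hMOB i (hE i i.2).1).2.2.2.1).mono (hΩsub.trans hsub))
    (fun i => ((hMOB i (hE i i.2).1).2.2.2.1).continuousOn.mono (hcl.trans hsub')) hne ?_ 0 h0Ω
  · rw [KRA_prod E (fun x => ‖T x 0‖) lam (fun x hx => by rw [KRA_T0]; linarith [hfar x hx])] at key
    simpa only [KRA_T0] using key
  · intro z hz
    have hzc : z ∈ closure Ω := frontier_subset_closure hz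
    have hzUD : z ∈ UD := hsub' (hcl hzc)
    have hTz := hclT z hzc
    have hpos : ∀ x ∈ E, 0 < ‖T x z‖ := fun x hx => by linarith [hTz x hx]
    rw [KRA_prod E (fun x => ‖T x z‖) lam hpos]
    have hgz : ‖g z‖ ≤ 1 := (KRA_ud.1 (hm hzUD)).le
    have hzn : z ∉ Ω := by
      rw [hΩo.frontier_eq] at hz
      exact hz.2
    by_cases hzt : ‖z‖ < t
    · -- some `‖T x z‖ ≤ 3/5`
      have : ∃ x ∈ E, ‖T x z‖ ≤ 3 / 5 := by
        by_contra hcon
        push Not at hcon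
        exact hzn ⟨hzt, hcon⟩
      obtain ⟨x, hx, hxz⟩ := this
      have e1 := KRA_a hSPK hg hm hτ (hE x hx).1 (hE x hx).2 hzUD hxz
      have e2 : lam * ∑ x ∈ E, Real.log (1 / ‖T x z‖) ≤ τ / 5 := by
        calc lam * ∑ x ∈ E, Real.log (1 / ‖T x z‖) ≤ lam * C₁ := mul_le_mul_of_nonneg_left (hS z hzUD hTz) hl0
          _ = τ / 5 := by
            rw [hlam]
            field_simp
      calc ‖g z‖ * Real.exp (lam * ∑ x ∈ E, Real.log (1 / ‖T x z‖)) ≤ Real.exp (-(τ / 5)) * Real.exp (τ / 5) :=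
            mul_le_mul e1 (Real.exp_le_exp.2 e2) (Real.exp_pos _).le (Real.exp_pos _).le
        _ = 1 := by rw [← Real.exp_add]; simp
        _ ≤ _ := hM1
    · have hzt' : ‖z‖ = t := le_antisymm (mem_closedBall_zero_iff.1 (hcl hzc)) (not_lt.1 hzt)
      have e2 : ∑ x ∈ E, Real.log (1 / ‖T x z‖) ≤ E.card * Real.log (1 / b) := by
        rw [← nsmul_eq_mul]
        refine Finset.sum_le_card_nsmul E _ _ fun x hx => ?_
        apply Real.log_le_log (by have := hpos x hx; positivity)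
        exact one_div_le_one_div_of_le hb0 (hbd x hx z hzt')
      calc ‖g z‖ * Real.exp (lam * ∑ x ∈ E, Real.log (1 / ‖T x z‖)) ≤ 1 * Real.exp (lam * (E.card * Real.log (1 / b))) :=
            mul_le_mul hgz (Real.exp_le_exp.2 (mul_le_mul_of_nonneg_left e2 hl0)) (Real.exp_pos _).le zero_le_one
        _ = _ := one_mul _

theorem KRA (hQMX : QMX_stmt) (hSPK : ED.SPK_stmt) (hMOB : HY.MOB_stmt) : KRA_stmt := by
  intro g E τ C₁ hg hm hτ hτ1 hC hE hS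
  have h0UD : (0 : ℂ) ∈ UD := KRA_ud.2 (by simp)
  have hg01 : ‖g 0‖ ≤ 1 := mem_closedBall_zero_iff.1 (hm h0UD)
  rcases hτ.eq_or_lt with h0 | hτ0
  · rw [← h0]
    simpa using hg01
  rcases E.eq_empty_or_nonempty with hE0 | ⟨x₀, hx₀⟩
  · rw [hE0]
    simpa using hg01
  have hmm : MapsTo g UD UD := KRA_self hg hm (hE x₀ hx₀).1 (by linarith [(hE x₀ hx₀).2])
  set lam := τ / (5 * C₁) with hlam
  have hl0 : 0 ≤ lam := by positivity
  have hl5 : lam ≤ τ / 5 := by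
    rw [hlam]
    apply div_le_div_of_nonneg_left hτ (by norm_num)
    linarith
  by_cases hnear : ∃ x ∈ E, ‖x‖ ≤ 3 / 5
  · obtain ⟨x, hx, hx5⟩ := hnear
    have e1 := KRA_a hSPK hg hmm hτ (hE x hx).1 (hE x hx).2 h0UD (by rw [KRA_T0]; exact hx5)
    refine e1.trans (Real.exp_le_exp.2 (neg_le_neg ?_))
    calc lam * min 1 (∑ x ∈ E, Real.log (1 / ‖x‖)) ≤ lam * 1 := mul_le_mul_of_nonneg_left (min_le_left _ _) hl0
      _ ≤ τ / 5 := by linarith
  push Not at hnear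
  -- the largest norm
  obtain ⟨ρ, hρ1, hρ⟩ : ∃ ρ : ℝ, ρ < 1 ∧ ∀ x ∈ E, ‖x‖ ≤ ρ := by
    refine ⟨E.sup' ⟨x₀, hx₀⟩ (fun x => ‖x‖), ?_, fun x hx => Finset.le_sup' (fun x => ‖x‖) hx⟩
    rw [Finset.sup'_lt_iff]
    exact fun x hx => KRA_ud.1 (hE x hx).1
  have hρ0 : 0 < 1 - ρ := by linarith
  have hρ3 : 3 / 5 < ρ := lt_of_lt_of_le (hnear x₀ hx₀) (hρ x₀ hx₀)
  have hmain : ∀ᶠ b in 𝓝[<] (1 : ℝ), ‖g 0‖ * Real.exp (lam * ∑ x ∈ E, Real.log (1 / ‖x‖)) ≤ Real.exp (lam * (E.card * Real.log (1 / b))) := by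
    have h1 : ∀ᶠ b in 𝓝[<] (1 : ℝ), b < 1 := eventually_mem_nhdsWithin
    have h2 : ∀ᶠ b in 𝓝[<] (1 : ℝ), (0 : ℝ) < b := by
      apply (eventually_gt_nhds zero_lt_one).filter_mono nhdsWithin_le_nhds
    filter_upwards [h1, h2] with b hb1 hb0
    -- t = 1 - (1 - b) (1 - ρ) / 4
    have ht0 : 0 < 1 - (1 - b) * (1 - ρ) / 4 := by nlinarith
    have ht1 : 1 - (1 - b) * (1 - ρ) / 4 < 1 := by
      have : 0 < (1 - b) * (1 - ρ) := mul_pos (by linarith) hρ0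
      linarith
    refine KRA_c hQMX hSPK hMOB hg hmm hτ hC hE hS hnear ht0 ht1 hb0 hb1.le ?_
    intro x hx y hy
    have hyUD : y ∈ UD := KRA_ud.2 (by rw [hy]; exact ht1)
    have e1 := hSPK.2.1 x (hE x hx).1 y hyUD
    have hx1 : 1 - ρ ≤ 1 - ‖x‖ := by linarith [hρ x hx]
    have e2 : 4 * (1 - ‖y‖) / (1 - ‖x‖) ≤ 1 - b := by
      rw [div_le_iff₀ (by linarith), hy]
      have : (1 - b) * (1 - ρ) ≤ (1 - b) * (1 - ‖x‖) := mul_le_mul_of_nonneg_left hx1 (by linarith)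
      linarith
    linarith
  have hlim : Tendsto (fun b : ℝ => Real.exp (lam * (E.card * Real.log (1 / b)))) (𝓝[<] 1) (𝓝 (Real.exp (lam * (E.card * Real.log (1 / 1))))) := by
    apply Tendsto.mono_left _ nhdsWithin_le_nhds
    apply ContinuousAt.tendsto
    have h1 : ContinuousAt (fun b : ℝ => Real.log (1 / b)) 1 := by
      apply ContinuousAt.log
      · exact continuousAt_const.div continuousAt_id (by norm_num)
      · norm_num
    exact ((h1.const_mul _).const_mul _).rexp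
  have hfin := ge_of_tendsto hlim hmain
  simp only [div_one, Real.log_one, mul_zero, Real.exp_zero] at hfin
  have hS0 : 0 < Real.exp (lam * ∑ x ∈ E, Real.log (1 / ‖x‖)) := Real.exp_pos _
  have e3 : ‖g 0‖ ≤ Real.exp (-(lam * ∑ x ∈ E, Real.log (1 / ‖x‖))) := by
    rw [Real.exp_neg, ← one_div, le_div_iff₀ hS0]
    exact hfin
  refine e3.trans (Real.exp_le_exp.2 (neg_le_neg ?_))
  exact mul_le_mul_of_nonneg_left (min_le_right _ _) hl0

end FSE
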